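import Pool.Agent.H41.AUG.Stmts

set_option autoImplicit false

namespace Pool.Agent.H48.AUG

open Pool.Agent.H41.AUG Finset

theorem halld1 {n m : ℕ} {U : Finset (Cell n)} (h : DefLe U m) :
    ∃ M ⊆ U, IsMatch M ∧ n ≤ M.card + m := by
  classical
  let t : Fin n → Finset (Fin n ⊕ Fin m) := fun s =>
    (Finset.univ.filter fun c => (s, c) ∈ U).map Function.Embedding.inl ∪
      (Finset.univ : Finset (Fin m)).map Function.Embedding.inr
  have hall : ∀ Z : Finset (Fin n), Z.card ≤ (Z.biUnion t).card := by
    intro Z
    rcases Z.eq_empty_or_nonempty with rfl | hZ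
    · simp
    · have hsub : (nbr U Z).map Function.Embedding.inl ∪
          (Finset.univ : Finset (Fin m)).map Function.Embedding.inr ⊆ Z.biUnion t := by
        intro x hx
        rw [Finset.mem_union] at hx
        rw [Finset.mem_biUnion]
        rcases hx with hx | hx
        · rw [Finset.mem_map] at hx
          obtain ⟨c, hc, rfl⟩ := hx
          obtain ⟨s, hs, hsc⟩ := (Finset.mem_filter.1 hc).2
          refine ⟨s, hs, ?_⟩
          simp only [t, Finset.mem_union, Finset.mem_map, Finset.mem_filter, Finset.mem_univ,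
            true_and]
          exact Or.inl ⟨c, hsc, rfl⟩
        · obtain ⟨s, hs⟩ := hZ
          refine ⟨s, hs, ?_⟩
          simp only [t, Finset.mem_union]
          exact Or.inr hx
      have hdis : Disjoint ((nbr U Z).map (Function.Embedding.inl : Fin n ↪ Fin n ⊕ Fin m))
          ((Finset.univ : Finset (Fin m)).map Function.Embedding.inr) := by
        rw [Finset.disjoint_left]
        intro x hx hy
        rw [Finset.mem_map] at hx hy
        obtain ⟨c, _, rfl⟩ := hx
        obtain ⟨j, _, hj⟩ := hy
        simp at hj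
      calc Z.card ≤ (nbr U Z).card + m := h Z
        _ = ((nbr U Z).map (Function.Embedding.inl : Fin n ↪ Fin n ⊕ Fin m) ∪
            (Finset.univ : Finset (Fin m)).map Function.Embedding.inr).card := by
            rw [Finset.card_union_of_disjoint hdis]
            simp
        _ ≤ _ := Finset.card_le_card hsub
  obtain ⟨f, hf, hft⟩ := (Finset.all_card_le_biUnion_card_iff_exists_injective t).1 hall
  let M : Finset (Cell n) := Finset.univ.filter fun p => f p.1 = Sum.inl p.2
  refine ⟨M, ?_, ⟨?_, ?_⟩, ?_⟩
  · intro p hp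
    have hp' : f p.1 = Sum.inl p.2 := (Finset.mem_filter.1 hp).2
    have := hft p.1
    rw [hp'] at this
    simp only [t, Finset.mem_union, Finset.mem_map, Finset.mem_filter, Finset.mem_univ,
      true_and] at this
    rcases this with ⟨c, hc, hcc⟩ | ⟨j, hj⟩
    · have : c = p.2 := by simpa using hcc
      rw [this] at hc
      exact hc
    · simp at hj
  · intro p hp q hq hpq
    have hp' : f p.1 = Sum.inl p.2 := (Finset.mem_filter.1 hp).2
    have hq' : f q.1 = Sum.inl q.2 := (Finset.mem_filter.1 hq).2
    rw [hpq, hq'] at hp'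
    have : q.2 = p.2 := by simpa using hp'
    exact Prod.ext hpq this.symm
  · intro p hp q hq hpq
    have hp' : f p.1 = Sum.inl p.2 := (Finset.mem_filter.1 hp).2
    have hq' : f q.1 = Sum.inl q.2 := (Finset.mem_filter.1 hq).2
    have : f p.1 = f q.1 := by rw [hp', hq', hpq]
    exact Prod.ext (hf this) hpq
  · -- rows split
    let R : Finset (Fin n) := Finset.univ.filter fun s => ∃ c, f s = Sum.inl c
    let Q : Finset (Fin n) := Finset.univ.filter fun s => ¬ ∃ c, f s = Sum.inl c
    have h1 : R.card + Q.card = n := by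
      have := Finset.card_filter_add_card_filter_not (s := (Finset.univ : Finset (Fin n)))
        (fun s => ∃ c, f s = Sum.inl c)
      simpa [R, Q] using this
    have h2 : R.card ≤ M.card := by
      have hsub : R ⊆ M.image Prod.fst := by
        intro s hs
        obtain ⟨c, hc⟩ := (Finset.mem_filter.1 hs).2
        rw [Finset.mem_image]
        exact ⟨(s, c), Finset.mem_filter.2 ⟨Finset.mem_univ _, hc⟩, rfl⟩
      exact (Finset.card_le_card hsub).trans Finset.card_image_le
    have h3 : Q.card ≤ m := by
      have hQ : (Q.image f) ⊆ (Finset.univ : Finset (Fin m)).map Function.Embedding.inr := by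
        intro x hx
        rw [Finset.mem_image] at hx
        obtain ⟨s, hs, rfl⟩ := hx
        have hs' := (Finset.mem_filter.1 hs).2
        rw [Finset.mem_map]
        rcases hfs : f s with c | j
        · exact absurd ⟨c, hfs⟩ hs'
        · exact ⟨j, Finset.mem_univ _, rfl⟩
      have h4 := Finset.card_le_card hQ
      rw [Finset.card_image_of_injective _ hf, Finset.card_map, Finset.card_univ,
        Fintype.card_fin] at h4
      exact h4
    omega

theorem halld2 {n m : ℕ} {U M : Finset (Cell n)} (hM : M ⊆ U) (hm : IsMatch M)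
    (hn : n ≤ M.card + m) : DefLe U m := by
  classical
  intro Z
  -- rows matched
  let R : Finset (Fin n) := M.image Prod.fst
  have hR : R.card = M.card := Finset.card_image_of_injOn (by
    intro p hp q hq hpq
    exact hm.1 p hp q hq hpq)
  have h1 : (Z \ R).card ≤ m := by
    have hd : Disjoint (Z \ R) R := Finset.sdiff_disjoint
    have h2 := Finset.card_le_univ ((Z \ R) ∪ R)
    rw [Finset.card_union_of_disjoint hd, Fintype.card_fin] at h2
    omega
  have h2 : (Z ∩ R).card ≤ (nbr U Z).card := by
    let N : Finset (Cell n) := M.filter fun p => p.1 ∈ Z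
    have h3 : Z ∩ R ⊆ N.image Prod.fst := by
      intro s hs
      rw [Finset.mem_inter, Finset.mem_image] at hs
      obtain ⟨hsZ, p, hp, rfl⟩ := hs
      exact Finset.mem_image.2 ⟨p, Finset.mem_filter.2 ⟨hp, hsZ⟩, rfl⟩
    have h4 : (Z ∩ R).card ≤ N.card := (Finset.card_le_card h3).trans Finset.card_image_le
    have h5 : N.card = (N.image Prod.snd).card := (Finset.card_image_of_injOn (by
      intro p hp q hq hpq
      exact hm.2 p (Finset.mem_filter.1 hp).1 q (Finset.mem_filter.1 hq).1 hpq)).symm
    have h6 : N.image Prod.snd ⊆ nbr U Z := by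
      intro c hc
      rw [Finset.mem_image] at hc
      obtain ⟨p, hp, rfl⟩ := hc
      have hp' := Finset.mem_filter.1 hp
      exact Finset.mem_filter.2 ⟨Finset.mem_univ _, p.1, hp'.2, hM hp'.1⟩
    rw [h5] at h4
    exact h4.trans (Finset.card_le_card h6)
  have h3 := Finset.card_sdiff_add_card_inter Z R
  omega

theorem halld3 {n : ℕ} {U : Finset (Cell n)} (h : DefLe U 0) :
    ∃ g : Equiv.Perm (Fin n), gr g ⊆ U := by
  classical
  let t : Fin n → Finset (Fin n) := fun s => Finset.univ.filter fun c => (s, c) ∈ U
  have hall : ∀ Z : Finset (Fin n), Z.card ≤ (Z.biUnion t).card := by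
    intro Z
    have h1 := h Z
    have h2 : nbr U Z ⊆ Z.biUnion t := by
      intro c hc
      obtain ⟨s, hs, hsc⟩ := (Finset.mem_filter.1 hc).2
      exact Finset.mem_biUnion.2 ⟨s, hs, Finset.mem_filter.2 ⟨Finset.mem_univ _, hsc⟩⟩
    have h3 := Finset.card_le_card h2
    omega
  obtain ⟨f, hf, hft⟩ := (Finset.all_card_le_biUnion_card_iff_exists_injective t).1 hall
  refine ⟨Equiv.ofBijective f (Finite.injective_iff_bijective.1 hf), ?_⟩
  intro p hp
  rw [gr, Finset.mem_image] at hp
  obtain ⟨i, _, rfl⟩ := hp
  exact (Finset.mem_filter.1 (hft i)).2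

theorem halld : S_HALLD := fun _ _ _ =>
  ⟨halld1, fun _ hM hm hn => halld2 hM hm hn, halld3⟩

end Pool.Agent.H48.AUG
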