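import Pool.Agent.H41.AUG.GStmts

set_option autoImplicit false

/-! A vertex of degree at most half the number of colours. -/

namespace Pool.Agent.H48.AUG

open Pool.Agent.H41.AUG
open Pool.Agent.H41.CP (nb dg)

/-- extending a packing to one more vertex -/
lemma packs_update {n : ℕ} {V : Type} [DecidableEq V] (G : SimpleGraph V) [DecidableRel G.Adj]
    (σ : V → V → Equiv.Perm (Fin n)) (hσ : ∀ u v, G.Adj u v → σ v u = (σ u v)⁻¹)
    (W : Finset V) (w : V) (φ : V → Equiv.Perm (Fin n)) (hφ : Packs G σ (W.erase w) φ)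
    (g : Equiv.Perm (Fin n)) (hg : ∀ u ∈ nb G W w, ∀ i, g i ≠ σ u w (φ u i)) :
    Packs G σ W (Function.update φ w g) := by
  intro u hu v hv huv i
  by_cases hvw : v = w
  · subst hvw
    have huv' : u ≠ v := huv.ne
    rw [Function.update_self, Function.update_of_ne huv']
    exact hg u (Finset.mem_filter.2 ⟨hu, huv.symm⟩) i
  · by_cases huw : u = w
    · subst huw
      rw [Function.update_self, Function.update_of_ne hvw]
      intro h
      refine hg v (Finset.mem_filter.2 ⟨hv, huv⟩) i ?_
      rw [h, hσ u v huv]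
      exact (Equiv.symm_apply_apply (σ u v) (g i)).symm
    · rw [Function.update_of_ne hvw, Function.update_of_ne huw]
      exact hφ u (Finset.mem_erase.2 ⟨huw, hu⟩) v (Finset.mem_erase.2 ⟨hvw, hv⟩) huv i

lemma nbr_card {n : ℕ} {ι : Type} [Fintype ι] (f : ι → Equiv.Perm (Fin n)) (Z : Finset (Fin n))
    (i : Fin n) (hi : i ∈ Z) : n ≤ (nbr (unc f) Z).card + Fintype.card ι := by
  classical
  have h1 : (nbr (unc f) Z)ᶜ ⊆ Finset.univ.image fun u => f u i := by
    intro c hc
    rw [Finset.mem_compl] at hc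
    rw [Finset.mem_image]
    by_contra hcon
    push Not at hcon
    refine hc (Finset.mem_filter.2 ⟨Finset.mem_univ _, i, hi, ?_⟩)
    exact Finset.mem_filter.2 ⟨Finset.mem_univ _, fun u => hcon u (Finset.mem_univ _)⟩
  have h2 := (Finset.card_le_card h1).trans Finset.card_image_le
  rw [Finset.card_univ] at h2
  have h3 := Finset.card_add_card_compl (nbr (unc f) Z)
  rw [Fintype.card_fin] at h3
  omega

lemma nbr_full {n : ℕ} {ι : Type} [Fintype ι] (f : ι → Equiv.Perm (Fin n)) (Z : Finset (Fin n))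
    (hZ : Fintype.card ι < Z.card) : nbr (unc f) Z = Finset.univ := by
  classical
  ext c
  refine ⟨fun _ => Finset.mem_univ _, fun _ => ?_⟩
  by_contra hcon
  have h1 : Z ⊆ Finset.univ.image fun u => (f u)⁻¹ c := by
    intro i hi
    rw [Finset.mem_image]
    by_contra h2
    push Not at h2
    refine hcon (Finset.mem_filter.2 ⟨Finset.mem_univ _, i, hi, ?_⟩)
    refine Finset.mem_filter.2 ⟨Finset.mem_univ _, fun u hu => h2 u (Finset.mem_univ _) ?_⟩
    have h3 : f u i = c := hu
    rw [← h3]
    exact Equiv.symm_apply_apply (f u) i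
  have h2 := (Finset.card_le_card h1).trans Finset.card_image_le
  rw [Finset.card_univ] at h2
  omega

lemma low_def {n : ℕ} {ι : Type} [Fintype ι] (f : ι → Equiv.Perm (Fin n))
    (h : 2 * Fintype.card ι ≤ n) : DefLe (unc f) 0 := by
  intro Z
  rcases Z.eq_empty_or_nonempty with rfl | ⟨i, hi⟩
  · rw [Finset.card_empty]
    omega
  · have h1 := nbr_card f Z i hi
    by_cases h2 : Fintype.card ι < Z.card
    · rw [nbr_full f Z h2, Finset.card_univ, Fintype.card_fin]
      have := Finset.card_le_univ Z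
      rw [Fintype.card_fin] at this
      omega
    · omega

theorem low (hh : S_HALLD) : S_LOW := by
  intro n V _ G _ σ hσ W w hw hd φ hφ
  have h1 : DefLe (unc fun u : {u // u ∈ nb G W w} => σ u.1 w * φ u.1) 0 := by
    apply low_def
    rw [Fintype.card_coe]
    exact hd
  obtain ⟨g, hg⟩ := (hh n 0 _).2.2 h1
  refine ⟨_, packs_update G σ hσ W w φ hφ g fun u hu i h => ?_⟩
  have h2 : (i, g i) ∈ gr g := Finset.mem_image.2 ⟨i, Finset.mem_univ _, rfl⟩
  exact (Finset.mem_filter.1 (hg h2)).2 ⟨u, hu⟩ h.symm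

end Pool.Agent.H48.AUG
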